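import Pool.Agent.Lib.MP_f146a9_al.DVC.AffineC

/-!
# The Deligne complexes of classical types and of affine types A, C retract onto the Davis complex from every chamber
-/

namespace Pool.Agent.Results.MP_f146a9_al.ChamberRetraction

open Pool.Agent.Lib.MP_f146a9_al

/-- Let the Coxeter group `W` of type `A_n`, `B_n`, `D_n` or of affine type `A~_n` or `C~_n`, `n ≥ 2`, act by
isometries on a metric space `X`. The complex glued from copies `g K` of a chamber `K` in `X`, one for each element `g` of the Artin group (of type
`A_n`: the braid group on `n + 1` strands), has for each chamber `m K` a map `F` to `X`, which maps the point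
`y` of the chamber `g K` to `F g y = d g • y` for a map `d` from the Artin group to `W`, such that: `F` is
well defined at the faces; `F` does not increase distances: every path from the point `x` of `g K` to the
point `y` of `g h K` has at least the length `dist (F g x) (F (g h) y)`; `F` is the identity on `m K`, that
is `d m = 1`; `F` folds like the retraction of a building: for a generator `s` and `k ≠ 0` the element
`d (g s ^ k)` is `d g` or `d g s`, and it is `d g s` if this is longer than `d g`; so `F` is the development
on all chambers `m a K` where `a` is a product of nonzero powers along a reduced word of the element `u` of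
`W`: there `F` is `u`. -/
theorem result {B : Type} {W X : Type*} [Group W] [MetricSpace X] [MulAction W X] [IsIsometricSMul W X]
    {M : CoxeterMatrix B} (hM : DV.IsClassicalOrAffineAC M) (cs : CoxeterSystem M W) (m : ArtinGroup M) :
    ∃ d : ArtinGroup M → W,
    (∀ (T : Set B) (g h : ArtinGroup M) (y : X), h ∈ Apar M T →
      (∀ i ∈ T, cs.simple i • y = y) → d (g * h) • y = d g • y) ∧
    (∀ (c : List (X × ArtinGroup M)) (g : ArtinGroup M) (x y : X), IsPath cs c →
      dist (d g • x) (d (g * (c.map Prod.snd).prod) • y) ≤ pathLen x c y) ∧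
    d m = 1 ∧
    (∀ (i : B) (k : ℤ) (g : ArtinGroup M),
      (d (g * (PresentedGroup.of i : ArtinGroup M) ^ k) = d g ∨
        d (g * (PresentedGroup.of i : ArtinGroup M) ^ k) = d g * cs.simple i) ∧
      (k ≠ 0 → cs.length (d g) < cs.length (d g * cs.simple i) →
        d (g * (PresentedGroup.of i : ArtinGroup M) ^ k) = d g * cs.simple i)) ∧
    ∀ l : List (B × ℤ), (∀ p ∈ l, p.2 ≠ 0) → cs.IsReduced (letters l) →
      d (m * artinWord M l) = cs.wordProd (letters l) := by
  obtain ⟨cell, hc⟩ := DV.exists_cells_allC hM cs
  obtain ⟨d, h1, h2, h3, h4, h5⟩ := hc.folding (X := X)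
  refine ⟨fun g => d (m⁻¹ * g), ?_, ?_, ?_, ?_, ?_⟩
  · intro T g h y hh hy
    change d (m⁻¹ * (g * h)) • y = d (m⁻¹ * g) • y
    rw [← mul_assoc]
    exact h1 T _ h y hh hy
  · intro c g x y hcp
    change dist (d (m⁻¹ * g) • x) (d (m⁻¹ * (g * (c.map Prod.snd).prod)) • y) ≤ pathLen x c y
    rw [← mul_assoc]
    exact h2 c _ x y hcp
  · change d (m⁻¹ * m) = 1
    rw [inv_mul_cancel]
    exact h3
  · intro i k g
    have h6 := h4 i k (m⁻¹ * g)
    rw [mul_assoc] at h6
    exact h6
  · intro l hl hr
    change d (m⁻¹ * (m * artinWord M l)) = _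
    rw [inv_mul_cancel_left]
    exact h5 l hl hr

end Pool.Agent.Results.MP_f146a9_al.ChamberRetraction
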