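import Pool.Agent.Lib.MP_f146a9_al.Retract

/-!
# The multivalued retraction of a Deligne complex; straight geodesics are shortest paths
-/

namespace Pool.Agent.Results.MP_f146a9_al.MinimizingGeodesics

open Pool.Agent.Lib.MP_f146a9_al

/-- Let the Coxeter group `W` act by isometries on a metric space `X`. The complex glued from copies `g K` of
a chamber `K` in `X`, one for each element `g` of the Artin group, has a map `F` to the nonempty finite
subsets of `X` (`F g y` is the value at the point `y` of the chamber `g K`) such that: `F` is the identity on
the first chamber; `F` is well defined at the faces; `F` does not increase distances, for every path from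
the point `x` of `g K` to the point `y` of `g h K` each point of `F g x` is within its length of a point of
`F (g h) y` and conversely; and if `g` is a product of nonzero powers along a reduced word of the element
`u` of `W`, then `u y` is in `F g y`, and all other points of `F g y` are points `w y` with `w` shorter than
`u`. Hence straight geodesics are shortest paths: let `c` be a path with straight crossings, from the point
`x` of the chamber `K` to the point `y` of the chamber `a K`, whose development in `X` is a geodesic, and
let points of `X` at distance at most the length of `c` be joined by at most one geodesic; then the word of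
`c` is reduced (so that the previous clause applies to it), and the length of `c` is the smallest of the
lengths of all paths from the point `x` of `K` to the point `y` of `a K`. -/
theorem result {B W X : Type*} [Group W] [MetricSpace X] [MulAction W X] [IsIsometricSMul W X]
    {M : CoxeterMatrix B} (cs : CoxeterSystem M W) : ∃ F : ArtinGroup M → X → Set X,
    (∀ g y, (F g y).Finite ∧ (F g y).Nonempty) ∧
    (∀ y, F 1 y = {y}) ∧
    (∀ (T : Set B) (g h : ArtinGroup M) (y : X), h ∈ Apar M T → (∀ i ∈ T, cs.simple i • y = y) →
      F (g * h) y = F g y) ∧
    (∀ (c : List (X × ArtinGroup M)) (g : ArtinGroup M) (x y : X), IsPath cs c →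
      (∀ p ∈ F g x, ∃ p' ∈ F (g * (c.map Prod.snd).prod) y, dist p p' ≤ pathLen x c y) ∧
      ∀ p' ∈ F (g * (c.map Prod.snd).prod) y, ∃ p ∈ F g x, dist p p' ≤ pathLen x c y) ∧
    (∀ l : List (B × ℤ), (∀ p ∈ l, p.2 ≠ 0) → cs.IsReduced (letters l) → ∀ y : X,
      cs.wordProd (letters l) • y ∈ F (artinWord M l) y ∧
      ∀ p ∈ F (artinWord M l) y, p = cs.wordProd (letters l) • y ∨
        ∃ w : W, cs.length w < cs.length (cs.wordProd (letters l)) ∧ p = w • y) ∧
    ∀ (c : List (Crossing B X)), IsStraight cs c → ∀ x y : X,
      dist x (cs.wordProd (letters (crossWord c)) • y) = pathLen x (crossPath M c) y →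
      UniqueGeod X (pathLen x (crossPath M c) y) →
      cs.IsReduced (letters (crossWord c)) ∧
      IsLeast {L | ∃ c' : List (X × ArtinGroup M), IsPath cs c' ∧
        (c'.map Prod.snd).prod = artinWord M (crossWord c) ∧ pathLen x c' y = L}
        (pathLen x (crossPath M c) y) := by
  refine ⟨retr cs, fun g y => ⟨retr_finite cs g y, retr_nonempty cs g y⟩, retr_one cs, ?_, ?_, ?_, ?_⟩
  · exact fun T g h y hh hy => retr_mul cs hh g y hy
  · exact fun c g x y hc => ⟨(retr_path cs c hc g x y).2, (retr_path cs c hc g x y).1⟩
  · intro l hl hr y
    refine ⟨mem_retr cs l hl hr y, ?_⟩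
    rintro p ⟨w, hw, rfl⟩
    by_cases hwu : w = cs.wordProd (letters l)
    · exact Or.inl (by rw [hwu])
    · right
      refine ⟨w, ?_, rfl⟩
      by_contra hlt
      have h1 : cs.length (cs.wordProd (letters l)) = l.length := by
        rw [hr.eq]; simp [letters]
      exact hw ((vec_lead cs l hr).2 w (by omega) hwu)
  · intro c hc x y hgeo hU
    exact ⟨reduced_of_geodesic cs c hc x y hgeo hU, minimizing cs c hc x y hgeo hU⟩

end Pool.Agent.Results.MP_f146a9_al.MinimizingGeodesics
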