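import Pool.Agent.Lib.MP_f146a9_al.Right

/-!
# Products of powers along reduced words in Artin groups
-/

namespace Pool.Agent.Results.MP_f146a9_al.ReducedWords

open Pool.Agent.Lib.MP_f146a9_al

/-- Let `cs` be any Coxeter system. Let `l = [(s₁, k₁), ..., (sₚ, kₚ)]` and `l' = [(t₁, l₁), ..., (t_q, l_q)]`
be lists whose letters are reduced words of elements `u`, `v` of the Coxeter group, of minimal length in
their double cosets for the standard parabolic subgroups of `T₁` and `T₂`, with nonzero exponents. If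
`h₁ s₁ ^ k₁ ⋯ sₚ ^ kₚ = t₁ ^ l₁ ⋯ t_q ^ l_q h₂` in the Artin group for elements `h₁`, `h₂` of its standard
parabolic subgroups of `T₁` and `T₂`, then `u` and `v` lie in the same double coset; if moreover the two
words are equal and only `1` is in `W_{T₁} ∩ u W_{T₂} u⁻¹`, then the exponents are equal; and if `T₁` and
`T₂` are empty, then `u = v` and the products of the exponents are equal. -/
theorem result {B W : Type*} [Group W] {M : CoxeterMatrix B} (cs : CoxeterSystem M W) (T₁ T₂ : Set B)
    (l l' : List (B × ℤ)) (hl : ∀ p ∈ l, p.2 ≠ 0) (hl' : ∀ p ∈ l', p.2 ≠ 0)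
    (hr : cs.IsReduced (letters l)) (hr' : cs.IsReduced (letters l'))
    (hmin : IsMinimal cs T₁ T₂ (cs.wordProd (letters l)))
    (hmin' : IsMinimal cs T₁ T₂ (cs.wordProd (letters l')))
    (h₁ h₂ : ArtinGroup M) (hh₁ : h₁ ∈ Apar M T₁) (hh₂ : h₂ ∈ Apar M T₂)
    (h : h₁ * artinWord M l = artinWord M l' * h₂) :
    (∃ z₁ ∈ Wpar cs T₁, ∃ z₂ ∈ Wpar cs T₂,
      z₁ * cs.wordProd (letters l) = cs.wordProd (letters l') * z₂) ∧
    (letters l = letters l' →
      (∀ z₁ ∈ Wpar cs T₁, ∀ z₂ ∈ Wpar cs T₂,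
        z₁ * cs.wordProd (letters l) = cs.wordProd (letters l) * z₂ → z₁ = 1) → l = l') ∧
    (T₁ = ∅ → T₂ = ∅ → cs.wordProd (letters l) = cs.wordProd (letters l') ∧
      (l.map Prod.snd).prod = (l'.map Prod.snd).prod) := by
  refine ⟨double_coset cs hl hl' hr hr' hmin hmin' hh₁ hh₂ h, ?_, ?_⟩
  · intro hll htriv
    have h1 := exponents_two cs hh₁ hh₂ hl hl' hr hr' hmin htriv (by rw [hll]) h
    have h2 : ∀ l : List (B × ℤ), l = (letters l).zip (l.map Prod.snd) := by
      intro l
      induction l with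
      | nil => rfl
      | cons p l ih =>
        change p :: l = (p.1, p.2) :: (letters l).zip (l.map Prod.snd)
        rw [← ih]
    rw [h2 l, h2 l', h1, hll]
  · rintro rfl rfl
    have e1 : h₁ = 1 := by simpa [Apar] using hh₁
    have e2 : h₂ = 1 := by simpa [Apar] using hh₂
    rw [e1, e2, one_mul, mul_one] at h
    exact reduced_unique cs hl hl' hr hr' h

end Pool.Agent.Results.MP_f146a9_al.ReducedWords
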