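import Pool.Agent.Lib.MP_f146a9_al.Uniq

/-!
# Uniqueness of transversal geodesics in spherical Deligne complexes
-/

namespace Pool.Agent.Results.MP_f146a9_al.UniqueGeodesics

open Pool.Agent.Lib.MP_f146a9_al

/-- Let the Coxeter group act by isometries on a Euclidean space with a chamber `C`. Let `a` and `b` be
transversal geodesics of the spherical Deligne complex, shorter than `π`, from the same point `x` of a face
of type `T₁` to the same point of a face of type `T₂` (`h₁` in `A_{T₁}` and `h₂` in `A_{T₂}` compare their
first and their last chambers). Then their lengths and directions are equal, and if they cross one face at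
a time, they cross faces of the same types at the same times with the same exponents. -/
theorem result {B W : Type*} [Group W] {M : CoxeterMatrix B} (cs : CoxeterSystem M W)
    {V : Type*} [NormedAddCommGroup V] [InnerProductSpace ℝ V] (ρ : W →* (V ≃ₗᵢ[ℝ] V)) (C : Set V)
    (hC : IsChamber ρ C) (T₁ T₂ : Set B) (a b : GeodesicArc cs ρ C T₁ T₂)
    (ha : a.len < Real.pi) (hb : b.len < Real.pi) (hx : a.x = b.x) (he : a.e = b.e)
    (h₁ h₂ : ArtinGroup M) (hh₁ : h₁ ∈ Apar M T₁) (hh₂ : h₂ ∈ Apar M T₂)
    (h : h₁ * artinWord M a.cross = artinWord M b.cross * h₂) :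
    a.len = b.len ∧ a.y = b.y ∧
    (StrictMono a.time → StrictMono b.time →
      (letters a.cross).map cs.simple = (letters b.cross).map cs.simple ∧
      a.cross.map Prod.snd = b.cross.map Prod.snd ∧ List.ofFn a.time = List.ofFn b.time ∧
      (Function.Injective cs.simple → a.cross = b.cross ∧ (T₂ = ∅ → h₁ = 1))) := by
  obtain ⟨h1, h2, -⟩ := bigon cs hC a b ha hb hx he hh₁ hh₂ h
  refine ⟨h1, h2, ?_⟩
  intro hat hbt
  obtain ⟨-, -, h3, h4, h5⟩ := unique cs hC a b ha hb hx he hat hbt hh₁ hh₂ h
  refine ⟨h3, h4, h5, ?_⟩
  intro hinj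
  have h6 : letters a.cross = letters b.cross := List.map_injective_iff.2 hinj h3
  have h7 : ∀ l : List (B × ℤ), l = (letters l).zip (l.map Prod.snd) := by
    intro l
    induction l with
    | nil => rfl
    | cons p l ih =>
      change p :: l = (p.1, p.2) :: (letters l).zip (l.map Prod.snd)
      rw [← ih]
  have h8 : a.cross = b.cross := by rw [h7 a.cross, h7 b.cross, h6, h4]
  refine ⟨h8, ?_⟩
  rintro rfl
  have e2 : h₂ = 1 := by simpa [Apar] using hh₂
  rw [e2, mul_one, h8] at h
  exact mul_eq_right.1 h

end Pool.Agent.Results.MP_f146a9_al.UniqueGeodesics
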